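import Pool.Agent.T6.H65.ZD.Alg

/-!
# Zagier's dimension conjecture with coefficients in number fields

Let `𝒵_n` be the `ℚ`-space spanned by the multiple zeta values of weight `n`, `d_n` Zagier's sequence,
and for a field `F` of complex numbers let `F𝒵_n` be the `F`-space spanned by them. By the work of
Goncharov, Deligne-Goncharov and Brown there is a graded algebra of motivic multiple zeta values, a
polynomial ring in homogeneous generators, whose part of weight `n` has dimension `d_n` and is mapped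
onto `𝒵_n` by the period map; `MotivicPolynomials` is exactly this.

* If Zagier's conjecture is true in one weight `n`, then the multiple zeta values of weight `m` are as
  independent as possible over every number field `F` with `[F : ℚ] m ≤ n`, `[F : ℚ] m ≠ n - 1`:
  `dim_F F𝒵_m = d_m`.
* Conversely, if `dim_F F𝒵_m < d_m` and `δ = [F : ℚ]`, then `dim 𝒵_(δ m + j) ≤ d_(δ m + j) - d_j` for
  all `j`, and `dim_F F𝒵_(m + j) ≤ d_(m + j) - d_j` for all `j`.
* So Zagier's conjecture is equivalent to the same conjecture over any field `F` of algebraic numbers, to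
  `dim_F F𝒵_n = d_n` for infinitely many `n`, and to `limsup dim_F F𝒵_n / d_n = 1`.

The proof of the first point: a relation `∑ c_s z^s = 0` between the values of the monomials of weight
`m` with coefficients in `F` gives the matrix `∑ B_s X^s` of polynomials over `ℚ`, `B_s` the matrix of
the multiplication by `c_s` on `F`; its determinant has weight `δ m`, is not zero as a polynomial (its
values at rational points are norms) and has period zero.
-/

set_option autoImplicit false

namespace Pool.Agent.Results.MP_56e040_nt.AlgebraicCoefficients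

open Module Pool.Agent.T6.H65.ZD

/-- Let `M` be an algebra of motivic multiple zeta values (a polynomial ring) with the period map.
Let `F ≠ ℚ` be a field of complex numbers (the case `F = ℚ` is the hand-in `Propagation` of this problem).
(1) If `F` is a number field, Zagier's conjecture is true in the weight `n` and `[F : ℚ] m ≤ n`,
`n ≠ [F : ℚ] m + 1`, then `dim_F F𝒵_m = d_m`. (2) If `F` is a number field
of degree `δ` and `dim_F F𝒵_m ≠ d_m`, then `dim 𝒵_(δ m + j) ≤ d_(δ m + j) - d_j` for all `j`. (3) If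
`dim_F F𝒵_m ≠ d_m` (any `F`), then `dim_F F𝒵_(m + j) ≤ d_(m + j) - d_j` for all `j`. (4) Let `F` be a
field of algebraic numbers. Then `dim_F F𝒵_n ≤ dim 𝒵_n ≤ d_n`, and Zagier's conjecture
is equivalent to each of: `dim_F F𝒵_n = d_n` for all `n`; for infinitely many `n`; the upper limit of
`dim_F F𝒵_n / d_n` is (at least) one. -/
theorem result {ι : Type} (M : MotivicPolynomials ι) :
    (∀ (F : IntermediateField ℚ ℂ) [FiniteDimensional ℚ F], F ≠ ⊥ → ∀ m n, finrank ℚ F * m ≤ n →
      n ≠ finrank ℚ F * m + 1 → finrank ℚ (Z n) = d n → finrank F (ZF F m) = d m) ∧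
    (∀ (F : IntermediateField ℚ ℂ) [FiniteDimensional ℚ F], F ≠ ⊥ → ∀ m, finrank F (ZF F m) ≠ d m →
      ∀ j, finrank ℚ (Z (finrank ℚ F * m + j)) + d j ≤ d (finrank ℚ F * m + j)) ∧
    (∀ F : IntermediateField ℚ ℂ, F ≠ ⊥ → ∀ m, finrank F (ZF F m) ≠ d m →
      ∀ j, finrank F (ZF F (m + j)) + d j ≤ d (m + j)) ∧
    (∀ (F : IntermediateField ℚ ℂ) [Algebra.IsAlgebraic ℚ F], F ≠ ⊥ →
      (∀ n, finrank F (ZF F n) ≤ finrank ℚ (Z n) ∧ finrank ℚ (Z n) ≤ d n) ∧
      ((∀ n, finrank ℚ (Z n) = d n) ↔ ∀ n, finrank F (ZF F n) = d n) ∧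
      ((∀ n, finrank ℚ (Z n) = d n) ↔ ∀ N, ∃ n, N ≤ n ∧ finrank F (ZF F n) = d n) ∧
      ((∀ n, finrank ℚ (Z n) = d n) ↔ ∀ ε : ℝ, 0 < ε → ∀ N, ∃ n, N ≤ n ∧
        (1 - ε) * (d n : ℝ) ≤ finrank F (ZF F n))) := by
  refine ⟨fun F _ _ m n hn hn1 h => ?_, fun F _ _ m h j => M.propagate F m h j,
    fun F _ m h j => M.propagateF F m h j, fun F _ _ => ?_⟩
  · by_contra hcon
    obtain ⟨j, rfl⟩ := Nat.exists_eq_add_of_le hn
    have h1 := M.propagate F m hcon j
    have h2 : 0 < d j := by
      match j, hn1 with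
      | 0, _ => exact one_pos
      | 1, hn1 => exact absurd rfl hn1
      | j + 2, _ => exact d_pos j
    omega
  · have le1 : ∀ n, finrank ℚ (Z n) ≤ d n := fun n => by
      have := M.toMotivic.rank n
      omega
    have le2 : ∀ n, finrank F (ZF F n) ≤ finrank ℚ (Z n) := fun n => M.finrank_le F n
    have up : (∀ n, finrank ℚ (Z n) = d n) → ∀ n, finrank F (ZF F n) = d n := fun h n =>
      (M.finrank_iff F n).2 (M.li_of_algebraic h F n)
    have key : (∀ ε : ℝ, 0 < ε → ∀ N, ∃ n, N ≤ n ∧ (1 - ε) * (d n : ℝ) ≤ finrank F (ZF F n)) →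
        ∀ n, finrank F (ZF F n) = d n := by
      intro h m
      by_contra hm
      obtain ⟨n, hn, h1⟩ := h (1 / 2 ^ (m + 1)) (by positivity) (m + 2)
      obtain ⟨k, rfl⟩ := Nat.exists_eq_add_of_le hn
      have h2 := M.propagateF F m hm (k + 2)
      have h3 := d_pow k m
      have h4 := d_pos k
      have e1 : m + 2 + k = m + (k + 2) := by ring
      have e2 : k + 2 + m = m + (k + 2) := by ring
      rw [e1] at h1
      rw [e2] at h3
      have h2' : ((finrank F (ZF F (m + (k + 2)))) : ℝ) + d (k + 2) ≤ d (m + (k + 2)) := by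
        exact_mod_cast h2
      have h3' : (d (m + (k + 2)) : ℝ) ≤ 2 ^ m * d (k + 2) := by exact_mod_cast h3
      have h4' : (0 : ℝ) < d (k + 2) := by exact_mod_cast h4
      have h5 : (d (k + 2) : ℝ) ≤ 1 / 2 ^ (m + 1) * d (m + (k + 2)) := by linarith
      have h6 : (1 : ℝ) / 2 ^ (m + 1) * d (m + (k + 2)) ≤ 1 / 2 ^ (m + 1) * (2 ^ m * d (k + 2)) :=
        mul_le_mul_of_nonneg_left h3' (by positivity)
      have h7 : (1 : ℝ) / 2 ^ (m + 1) * (2 ^ m * d (k + 2)) = d (k + 2) / 2 := by
        rw [pow_succ]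
        field_simp
      linarith
    have down : (∀ n, finrank F (ZF F n) = d n) → ∀ n, finrank ℚ (Z n) = d n := fun h n =>
      le_antisymm (le1 n) (by rw [← h n]; exact le2 n)
    refine ⟨fun n => ⟨le2 n, le1 n⟩, ⟨up, down⟩, ⟨fun h N => ⟨N, le_rfl, up h N⟩, fun h => ?_⟩,
      ⟨fun h ε hε N => ⟨N, le_rfl, ?_⟩, fun h => down (key h)⟩⟩
    · refine down (key fun ε hε N => ?_)
      obtain ⟨n, hn, h1⟩ := h N
      refine ⟨n, hn, ?_⟩
      rw [h1]
      have : (0 : ℝ) ≤ d n := Nat.cast_nonneg _
      nlinarith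
    · rw [up h N]
      have : (0 : ℝ) ≤ d N := Nat.cast_nonneg _
      nlinarith

end Pool.Agent.Results.MP_56e040_nt.AlgebraicCoefficients
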