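import Pool.Agent.T6.H65.ZD.Prime

/-!
# Zagier's dimension conjecture and the cokernels of the multiplication by a multiple zeta value

Let `𝒵_n` be the `ℚ`-space spanned by the multiple zeta values of weight `n`, and `d_n` Zagier's
sequence. By the work of Goncharov, Deligne-Goncharov and Brown there is a graded algebra of motivic
multiple zeta values, a polynomial ring (hence a factorial domain) whose part of weight `n` has
dimension `d_n` and is mapped onto `𝒵_n` by a homomorphism to the real numbers, the period map.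
`MotivicAlgebra` is exactly this.

Let `w ≥ 2`, and let `x ≠ 0` be an element of `𝒵_w`, for example `x = ζ(w)`.

* The codimension of `x 𝒵_n` in `𝒵_(w+n)` is at most `d_(w+n) - d_n` for all `n`.
* Zagier's conjecture is equivalent to equality for infinitely many `n`, and to the statement that the
  upper limit of the quotient of the two numbers is one. For `x = ζ(2)`: the conjecture holds if (and only
  if) `𝒵_(n+3) / ζ(2) 𝒵_(n+1)` has dimension `d_n` for infinitely many `n`.
* If `m` is the first weight in which Zagier's conjecture fails, then the codimension of `x 𝒵_(m+r)` in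
  `𝒵_(w+m+r)` is at most `d_(w+m+r) - d_(m+r) - (d_(w+r) - d_r)`.

The reason is that a motivic relation of weight `m` is a prime element of the motivic algebra, and does
not divide a motivic element whose period is `x`.
-/

set_option autoImplicit false

namespace Pool.Agent.Results.MP_56e040_nt.CokernelsOfMultiplication

open Module Pool.Agent.T6.H65.ZD

/-- the space `x 𝒵_n` -/
noncomputable def multiples (x : ℝ) (n : ℕ) : Submodule ℚ ℝ := (Z n).map (LinearMap.mulLeft ℚ x)

/-- the dimension of `𝒵_(w+n) / x 𝒵_n` -/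
noncomputable def codim (w : ℕ) (x : ℝ) (n : ℕ) : ℕ :=
  finrank ℚ (Z (w + n) ⧸ (multiples x n).submoduleOf (Z (w + n)))

section

variable {A : Type} [CommRing A] [IsDomain A] [UniqueFactorizationMonoid A] [Algebra ℚ A]
  (M : MotivicAlgebra A)

include M

lemma fin (n : ℕ) : FiniteDimensional ℚ (Z n) := by
  rw [← M.onto n]
  infer_instance

lemma mul_mem_Z {w n : ℕ} {x y : ℝ} (hx : x ∈ Z w) (hy : y ∈ Z n) : x * y ∈ Z (w + n) := by
  obtain ⟨g, hg, rfl⟩ := M.exists_lift hx
  obtain ⟨h, hh, rfl⟩ := M.exists_lift hy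
  rw [← M.onto (w + n)]
  exact ⟨g * h, M.mul_mem hg hh, map_mul M.per g h⟩

lemma multiples_le {w : ℕ} {x : ℝ} (hx : x ∈ Z w) (n : ℕ) : multiples x n ≤ Z (w + n) := by
  rintro _ ⟨y, hy, rfl⟩
  exact mul_mem_Z M hx hy

lemma codim_add {w : ℕ} {x : ℝ} (hx : x ∈ Z w) (hx0 : x ≠ 0) (n : ℕ) :
    codim w x n + finrank ℚ (Z n) = finrank ℚ (Z (w + n)) := by
  have := fin M (w + n)
  have h1 := Submodule.finrank_quotient_add_finrank ((multiples x n).submoduleOf (Z (w + n)))
  have h2 : finrank ℚ ((multiples x n).submoduleOf (Z (w + n))) = finrank ℚ (Z n) := by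
    rw [(Submodule.submoduleOfEquivOfLe (multiples_le M hx n)).finrank_eq]
    have hinj : Function.Injective (LinearMap.mulLeft ℚ x) := fun a b h => mul_left_cancel₀ hx0 h
    exact (Submodule.equivMapOfInjective _ hinj (Z n)).finrank_eq.symm
  rw [h2] at h1
  exact h1

lemma upper {w : ℕ} {x : ℝ} (hx : x ∈ Z w) (hx0 : x ≠ 0) (n : ℕ) :
    codim w x n + d n ≤ d (w + n) := by
  obtain ⟨g, hg, hgx⟩ := M.exists_lift hx
  have hg0 : g ≠ 0 := by
    rintro rfl
    rw [map_zero] at hgx
    exact hx0 hgx.symm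
  have h1 := codim_add M hx hx0 n
  have h2 := M.rank n
  have h3 := M.rank (w + n)
  have h4 : finrank ℚ (M.K n) ≤ finrank ℚ (M.K (w + n)) := by
    rw [← MotivicAlgebra.finrank_mul hg0 (M.K n)]
    refine Submodule.finrank_mono ?_
    rintro _ ⟨y, hy, rfl⟩
    refine ⟨M.mul_mem hg (M.K_le n hy), ?_⟩
    show M.per (g * y) = 0
    rw [map_mul, M.K_per hy, mul_zero]
  omega

lemma first {w : ℕ} {x : ℝ} (hx : x ∈ Z w) (hx0 : x ≠ 0) {m : ℕ}
    (hm : ∀ j < m, finrank ℚ (Z j) = d j) (hm' : finrank ℚ (Z m) ≠ d m) (r : ℕ) :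
    codim w x (m + r) + d (m + r) + d (w + r) ≤ d (w + (m + r)) + d r := by
  have h1 := M.coker hm hm' hx hx0 r
  have h2 := codim_add M hx hx0 (m + r)
  have e : m + w + r = w + (m + r) := by ring
  rw [e] at h1
  omega

end

lemma zeta_mem {w : ℕ} (hw : 2 ≤ w) : mzv [w] ∈ Z w ∧ mzv [w] ≠ 0 := by
  refine ⟨Submodule.subset_span ⟨[w], ⟨?_, ?_, ?_⟩, rfl⟩, ?_⟩
  · intro s hs
    rw [List.mem_singleton] at hs
    omega
  · intro s hs
    simp only [List.head?_cons, Option.mem_def, Option.some.injEq] at hs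
    omega
  · simp
  · have h1 : mzv [w] = ∑' m : ℕ, 1 / ((m + 1 : ℕ) : ℝ) ^ w := by
      simp only [mzv, trunc]
    have hs : Summable (fun m : ℕ => 1 / ((m + 1 : ℕ) : ℝ) ^ w) :=
      (summable_nat_add_iff 1).2 (Real.summable_one_div_nat_pow.2 (by omega))
    rw [h1]
    refine ne_of_gt (hs.tsum_pos (fun m => by positivity) 0 (by norm_num))

/-- Let `A` be an algebra of motivic multiple zeta values with the period map. Let `w ≥ 2` and let
`x ≠ 0` be in `𝒵_w`, for example `x = ζ(w)`. (1) `x 𝒵_n ⊆ 𝒵_(w+n)`, and the codimension is at most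
`d_(w+n) - d_n`, for all `n`. (2) If Zagier's conjecture fails and `m` is the first weight in which it
does, then the codimension of `x 𝒵_(m+r)` in `𝒵_(w+m+r)` is at most
`d_(w+m+r) - d_(m+r) - (d_(w+r) - d_r)` for all `r`. (3) Zagier's conjecture is equivalent to equality in
(1) for infinitely many `n`, and (4) to the statement that the upper limit of the quotient of the
codimension in (1) by `d_(w+n) - d_n` is (at least) one. -/
theorem result {A : Type} [CommRing A] [IsDomain A] [UniqueFactorizationMonoid A] [Algebra ℚ A]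
    (M : MotivicAlgebra A) :
    (∀ w, 2 ≤ w → mzv [w] ∈ Z w ∧ mzv [w] ≠ 0) ∧
    ∀ (w : ℕ) (x : ℝ), 2 ≤ w → x ∈ Z w → x ≠ 0 →
      (∀ n, multiples x n ≤ Z (w + n) ∧ codim w x n + d n ≤ d (w + n)) ∧
      (∀ m, (∀ j < m, finrank ℚ (Z j) = d j) → finrank ℚ (Z m) ≠ d m → ∀ r,
        codim w x (m + r) + d (m + r) + d (w + r) ≤ d (w + (m + r)) + d r) ∧
      ((∀ n, finrank ℚ (Z n) = d n) ↔ ∀ N, ∃ n, N ≤ n ∧ codim w x n + d n = d (w + n)) ∧
      ((∀ n, finrank ℚ (Z n) = d n) ↔ ∀ ε : ℝ, 0 < ε → ∀ N, ∃ n, N ≤ n ∧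
        (1 - ε) * ((d (w + n) : ℝ) - d n) ≤ codim w x n) := by
  refine ⟨fun w hw => zeta_mem hw, fun w x hw hx hx0 => ?_⟩
  have key : (∀ ε : ℝ, 0 < ε → ∀ N, ∃ n, N ≤ n ∧
      (1 - ε) * ((d (w + n) : ℝ) - d n) ≤ codim w x n) → ∀ n, finrank ℚ (Z n) = d n := by
    intro h
    by_contra hcon
    push Not at hcon
    classical
    let m := Nat.find hcon
    have hm' : finrank ℚ (Z m) ≠ d m := Nat.find_spec hcon
    have hm : ∀ j < m, finrank ℚ (Z j) = d j := fun j hj => by
      by_contra h'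
      exact Nat.find_min hcon hj h'
    obtain ⟨n, hn, h1⟩ := h (1 / (16 * 2 ^ m)) (by positivity) (m + 3)
    obtain ⟨k, rfl⟩ := Nat.exists_eq_add_of_le hn
    have e1 : m + 3 + k = m + (k + 3) := by ring
    rw [e1] at h1
    have h2 := first M hx hx0 hm hm' (k + 3)
    have h3 := d_gap hw (r := k + 3) (by omega)
    have h4 : d (w + (m + (k + 3))) ≤ 2 ^ m * d (w + (k + 3)) := by
      have := d_pow (w + (k + 1)) m
      have e2 : w + (k + 1) + 2 + m = w + (m + (k + 3)) := by ring
      have e3 : w + (k + 1) + 2 = w + (k + 3) := by ring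
      rwa [e2, e3] at this
    have h5 : 0 < d (w + (k + 3)) := by
      have := d_pos (w + (k + 1))
      have e3 : w + (k + 1) + 2 = w + (k + 3) := by ring
      rwa [e3] at this
    have h2' : (codim w x (m + (k + 3)) : ℝ) + d (m + (k + 3)) + d (w + (k + 3)) ≤
        d (w + (m + (k + 3))) + d (k + 3) := by exact_mod_cast h2
    have h3' : (d (w + (k + 3)) : ℝ) + 8 * d (k + 3) ≤ 8 * d (w + (k + 3)) := by exact_mod_cast h3
    have h4' : (d (w + (m + (k + 3))) : ℝ) ≤ 2 ^ m * d (w + (k + 3)) := by exact_mod_cast h4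
    have h5' : (0 : ℝ) < d (w + (k + 3)) := by exact_mod_cast h5
    have h6 : (0 : ℝ) ≤ d (m + (k + 3)) := Nat.cast_nonneg _
    have hpos : (0 : ℝ) < 1 / (16 * 2 ^ m) := by positivity
    have h7 : 1 / (16 * 2 ^ m) * ((d (w + (m + (k + 3))) : ℝ) - d (m + (k + 3))) ≤
        d (w + (k + 3)) / 16 := by
      calc 1 / (16 * 2 ^ m) * ((d (w + (m + (k + 3))) : ℝ) - d (m + (k + 3)))
          ≤ 1 / (16 * 2 ^ m) * (2 ^ m * d (w + (k + 3))) :=
            mul_le_mul_of_nonneg_left (by linarith) hpos.le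
        _ = d (w + (k + 3)) / 16 := by field_simp
    have h8 : ((d (w + (m + (k + 3))) : ℝ) - d (m + (k + 3))) -
        1 / (16 * 2 ^ m) * ((d (w + (m + (k + 3))) : ℝ) - d (m + (k + 3))) ≤
        codim w x (m + (k + 3)) := by
      have : (1 - 1 / (16 * 2 ^ m)) * ((d (w + (m + (k + 3))) : ℝ) - d (m + (k + 3))) =
        ((d (w + (m + (k + 3))) : ℝ) - d (m + (k + 3))) -
        1 / (16 * 2 ^ m) * ((d (w + (m + (k + 3))) : ℝ) - d (m + (k + 3))) := by ring
      rw [← this]; exact h1
    linarith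
  have eq_of : (∀ n, finrank ℚ (Z n) = d n) → ∀ n, codim w x n + d n = d (w + n) := by
    intro h n
    have h1 := codim_add M hx hx0 n
    rw [h n, h (w + n)] at h1
    exact h1
  have eps_of : ∀ n, codim w x n + d n = d (w + n) → ∀ ε : ℝ, 0 < ε →
      (1 - ε) * ((d (w + n) : ℝ) - d n) ≤ codim w x n := by
    intro n h ε hε
    have h1 : (codim w x n : ℝ) + d n = d (w + n) := by exact_mod_cast h
    have h2 : (0 : ℝ) ≤ codim w x n := Nat.cast_nonneg _
    have h3 : (d (w + n) : ℝ) - d n = codim w x n := by linarith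
    rw [h3]
    nlinarith
  refine ⟨fun n => ⟨multiples_le M hx n, upper M hx hx0 n⟩,
    fun m hm hm' r => first M hx hx0 hm hm' r,
    ⟨fun h N => ⟨N, le_rfl, eq_of h N⟩, fun h => key fun ε hε N => ?_⟩,
    ⟨fun h ε hε N => ⟨N, le_rfl, eps_of N (eq_of h N) ε hε⟩, key⟩⟩
  obtain ⟨n, hn, h1⟩ := h N
  exact ⟨n, hn, eps_of n h1 ε hε⟩

end Pool.Agent.Results.MP_56e040_nt.CokernelsOfMultiplication
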