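import Mathlib

/-!
# Zagier's dimension conjecture: a defect in one weight propagates

Let `𝒵_n` be the `ℚ`-space spanned by the multiple zeta values of weight `n`, and `d_n` Zagier's
sequence. By the work of Goncharov, Deligne-Goncharov and Brown there is a graded algebra of motivic
multiple zeta values, a polynomial ring (hence a domain) whose part of weight `n` has dimension `d_n`
and is mapped onto `𝒵_n` by a homomorphism to the real numbers, the period map. `MotivicAlgebra` is
exactly this.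

* If `dim 𝒵_m < d_m`, then `dim 𝒵_(m+n) ≤ d_(m+n) - d_n` for all `n`; so the defect in one weight
  propagates to all larger weights (except `m + 1`) and grows like `d_n`.
* Hence Zagier's conjecture is true if (and only if) it is true for infinitely many weights, and if (and
  only if) the upper limit of `dim 𝒵_n / d_n` is `1`.
-/

set_option autoImplicit false

namespace Pool.Agent.Results.MP_56e040_nt.Propagation

open Module

/-- `trunc [s_1, ..., s_r] m` is the sum of `∏ n_i ^ (-s_i)` over `m > n_1 > ... > n_r ≥ 1` -/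
noncomputable def trunc : List ℕ → ℕ → ℝ
  | [], _ => 1
  | s :: l, m => ∑ j ∈ Finset.Ico 1 m, trunc l j / (j : ℝ) ^ s

/-- the multiple zeta value `ζ(s_1, ..., s_r)`, the sum of `∏ n_i ^ (-s_i)` over
`n_1 > ... > n_r ≥ 1` -/
noncomputable def mzv : List ℕ → ℝ
  | [] => 1
  | s :: l => ∑' m : ℕ, trunc l (m + 1) / ((m + 1 : ℕ) : ℝ) ^ s

/-- the admissible indices of weight `k` -/
def Admissible (k : ℕ) (w : List ℕ) : Prop :=
  (∀ s ∈ w, 1 ≤ s) ∧ (∀ s ∈ w.head?, 2 ≤ s) ∧ w.sum = k

/-- the space spanned by the multiple zeta values of weight `k` -/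
noncomputable def Z (k : ℕ) : Submodule ℚ ℝ := Submodule.span ℚ (mzv '' {w | Admissible k w})

/-- Zagier's sequence -/
def d : ℕ → ℕ
  | 0 => 1
  | 1 => 0
  | 2 => 1
  | n + 3 => d n + d (n + 1)

/-- A commutative domain over `ℚ` with subspaces `H n` of dimension `d n`, `H m * H n ⊆ H (m + n)`, and
a homomorphism to the real numbers which maps `H n` onto the space of the multiple zeta values of weight
`n`: the algebra of motivic multiple zeta values with the period map. -/
structure MotivicAlgebra (A : Type) [CommRing A] [IsDomain A] [Algebra ℚ A] where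
  H : ℕ → Submodule ℚ A
  finite : ∀ n, FiniteDimensional ℚ (H n)
  dim : ∀ n, finrank ℚ (H n) = d n
  mul_mem : ∀ m n x y, x ∈ H m → y ∈ H n → x * y ∈ H (m + n)
  per : A →ₐ[ℚ] ℝ
  onto : ∀ n, (H n).map per.toLinearMap = Z n

/-! ### Zagier's sequence -/

lemma d_rec (n : ℕ) : d (n + 3) = d n + d (n + 1) := rfl

lemma d_double : ∀ n : ℕ, d (n + 3) ≤ 2 * d (n + 2)
  | 0 => by decide
  | 1 => by decide
  | 2 => by decide
  | n + 3 => by
    have h1 := d_double n
    have h2 := d_double (n + 1)
    have e1 : d (n + 3 + 3) = d (n + 3) + d (n + 4) := rfl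
    have e2 : d (n + 3 + 2) = d (n + 2) + d (n + 3) := rfl
    have e3 : d (n + 4) = d (n + 1) + d (n + 2) := rfl
    have e4 : d (n + 1 + 2) = d (n + 3) := rfl
    have e5 : d (n + 1 + 3) = d (n + 4) := rfl
    rw [e4, e5] at h2
    rw [e1, e2]
    omega

lemma d_pow (n m : ℕ) : d (n + 2 + m) ≤ 2 ^ m * d (n + 2) := by
  induction m with
  | zero => simp
  | succ m ih =>
    have h := d_double (n + m)
    have e1 : n + m + 3 = n + 2 + (m + 1) := by ring
    have e2 : n + m + 2 = n + 2 + m := by ring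
    rw [e1, e2] at h
    calc d (n + 2 + (m + 1)) ≤ 2 * d (n + 2 + m) := h
      _ ≤ 2 * (2 ^ m * d (n + 2)) := Nat.mul_le_mul_left _ ih
      _ = 2 ^ (m + 1) * d (n + 2) := by ring

lemma d_pos : ∀ n : ℕ, 0 < d (n + 2)
  | 0 => by decide
  | 1 => by decide
  | 2 => by decide
  | n + 3 => by
    have h1 := d_pos n
    have e1 : d (n + 3 + 2) = d (n + 2) + d (n + 3) := rfl
    rw [e1]
    omega

/-! ### propagation -/

section

variable {A : Type} [CommRing A] [IsDomain A] [Algebra ℚ A] (M : MotivicAlgebra A)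

include M

/-- the motivic elements of weight `n` with period zero -/
noncomputable def MotivicAlgebra.kerPer (n : ℕ) : Submodule ℚ (M.H n) :=
  LinearMap.ker (M.per.toLinearMap.domRestrict (M.H n))

lemma MotivicAlgebra.rank (n : ℕ) : finrank ℚ (Z n) + finrank ℚ (M.kerPer n) = d n := by
  have := M.finite n
  have h1 := LinearMap.finrank_range_add_finrank_ker (M.per.toLinearMap.domRestrict (M.H n))
  rw [M.dim n] at h1
  have h2 : LinearMap.range (M.per.toLinearMap.domRestrict (M.H n)) = Z n := by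
    rw [LinearMap.range_domRestrict, M.onto]
  rw [h2] at h1
  exact h1

theorem MotivicAlgebra.propagation {m : ℕ} (h : finrank ℚ (Z m) ≠ d m) (n : ℕ) :
    finrank ℚ (Z (m + n)) + d n ≤ d (m + n) := by
  have h1 := M.rank m
  have h2 : M.kerPer m ≠ ⊥ := by
    intro h0
    rw [h0, finrank_bot, add_zero] at h1
    exact h h1
  obtain ⟨x, hx, hx0⟩ := (Submodule.ne_bot_iff _).1 h2
  have hx1 : M.per (x : A) = 0 := hx
  have hx2 : (x : A) ≠ 0 := fun h0 => hx0 (Subtype.ext h0)
  have := M.finite (m + n)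
  have := M.finite n
  -- multiplication by `x`
  let f : M.H n →ₗ[ℚ] M.kerPer (m + n) :=
    { toFun := fun y => ⟨⟨x * y, M.mul_mem m n x y x.2 y.2⟩, by
        show M.per ((x : A) * y) = 0
        rw [map_mul, hx1, zero_mul]⟩
      map_add' := fun y z => by
        apply Subtype.ext
        apply Subtype.ext
        show (x : A) * ((y : A) + z) = (x : A) * y + x * z
        ring
      map_smul' := fun c y => by
        apply Subtype.ext
        apply Subtype.ext
        show (x : A) * (c • (y : A)) = c • ((x : A) * y)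
        rw [mul_smul_comm] }
  have hf : Function.Injective f := by
    intro y z hyz
    have h3 : (x : A) * y = x * z := congrArg (fun t : M.kerPer (m + n) => ((t : M.H (m + n)) : A)) hyz
    exact Subtype.ext (mul_left_cancel₀ hx2 h3)
  have h4 := LinearMap.finrank_le_finrank_of_injective hf
  rw [M.dim n] at h4
  have h5 := M.rank (m + n)
  omega

end

/-- Let `A` be an algebra of motivic multiple zeta values with the period map. (1) If Zagier's
conjecture is false in weight `m`, then `dim 𝒵_(m+n) ≤ d_(m+n) - d_n` for all `n`. (2) Zagier's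
conjecture is equivalent to `dim 𝒵_n = d_n` for infinitely many `n`, and (3) to the statement that the
upper limit of `dim 𝒵_n / d_n` is (at least) one. -/
theorem result {A : Type} [CommRing A] [IsDomain A] [Algebra ℚ A] (M : MotivicAlgebra A) :
    (∀ m n, finrank ℚ (Z m) ≠ d m → finrank ℚ (Z (m + n)) + d n ≤ d (m + n)) ∧
    ((∀ n, finrank ℚ (Z n) = d n) ↔ ∀ N, ∃ n, N ≤ n ∧ finrank ℚ (Z n) = d n) ∧
    ((∀ n, finrank ℚ (Z n) = d n) ↔ ∀ ε : ℝ, 0 < ε → ∀ N, ∃ n, N ≤ n ∧
      (1 - ε) * (d n : ℝ) ≤ finrank ℚ (Z n)) := by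
  have key : (∀ ε : ℝ, 0 < ε → ∀ N, ∃ n, N ≤ n ∧ (1 - ε) * (d n : ℝ) ≤ finrank ℚ (Z n)) →
      ∀ n, finrank ℚ (Z n) = d n := by
    intro h m
    by_contra hm
    obtain ⟨n, hn, h1⟩ := h (1 / 2 ^ (m + 1)) (by positivity) (m + 2)
    obtain ⟨k, rfl⟩ := Nat.exists_eq_add_of_le hn
    have h2 := M.propagation hm (k + 2)
    have h3 := d_pow k m
    have h4 := d_pos k
    have e1 : m + 2 + k = m + (k + 2) := by ring
    have e2 : k + 2 + m = m + (k + 2) := by ring
    rw [e1] at h1
    rw [e2] at h3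
    have h2' : ((finrank ℚ (Z (m + (k + 2)))) : ℝ) + d (k + 2) ≤ d (m + (k + 2)) := by
      exact_mod_cast h2
    have h3' : (d (m + (k + 2)) : ℝ) ≤ 2 ^ m * d (k + 2) := by exact_mod_cast h3
    have h4' : (0 : ℝ) < d (k + 2) := by exact_mod_cast h4
    have h5 : (d (k + 2) : ℝ) ≤ 1 / 2 ^ (m + 1) * d (m + (k + 2)) := by linarith
    have h6 : (1 : ℝ) / 2 ^ (m + 1) * d (m + (k + 2)) ≤ 1 / 2 ^ (m + 1) * (2 ^ m * d (k + 2)) :=
      mul_le_mul_of_nonneg_left h3' (by positivity)
    have h7 : (1 : ℝ) / 2 ^ (m + 1) * (2 ^ m * d (k + 2)) = d (k + 2) / 2 := by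
      rw [pow_succ]
      field_simp
    linarith
  refine ⟨fun m n h => M.propagation h n, ⟨fun h N => ⟨N, le_rfl, h N⟩, fun h => ?_⟩,
    ⟨fun h ε hε N => ⟨N, le_rfl, ?_⟩, key⟩⟩
  · refine key fun ε hε N => ?_
    obtain ⟨n, hn, h1⟩ := h N
    refine ⟨n, hn, ?_⟩
    rw [h1]
    have : (0 : ℝ) ≤ d n := Nat.cast_nonneg _
    nlinarith
  · rw [h N]
    have : (0 : ℝ) ≤ d N := Nat.cast_nonneg _
    nlinarith

end Pool.Agent.Results.MP_56e040_nt.Propagation
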