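import Pool.Agent.T6.H65.ZD.Prime

/-!
# Zagier's dimension conjecture: one relation or two

Let `𝒵_n` be the `ℚ`-space spanned by the multiple zeta values of weight `n`, and `d_n` Zagier's
sequence. `MotivicAlgebra` is the graded factorial algebra of motivic multiple zeta values with the
period map (Goncharov, Deligne-Goncharov, Brown); the relations of weight `n` are its homogeneous
elements of weight `n` and period zero.

Suppose that Zagier's conjecture is false, and let `m` be the first weight in which it fails. Then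
`m ≥ 5`, and `dim 𝒵_n ≤ d_n - d_(n-m)` for all `n ≥ m`. There are two cases.

* There is equality for all `n ≥ m`. This holds if and only if all relations (of all weights) are the
  multiples of a single one.
* There is no equality for some weight `l ≥ m`. Then
  `dim 𝒵_n ≤ d_n - d_(n-m) - d_(n-l) + d_(n-m-l)` for all `n ≥ m + l`.

In particular there is equality for all `n ≥ m` if there is equality for infinitely many `n`, or
equality up to `o(d_n)` on some sequence of weights. With the real number `θ` such that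
`θ ^ 3 = θ + 1`, the upper limit of `dim 𝒵_n / d_n` is `1`, or `1 - θ ^ (-m)` or at most
`(1 - θ ^ (-m)) (1 - θ ^ (-l))`.
-/

set_option autoImplicit false

namespace Pool.Agent.Results.MP_56e040_nt.SecondDefects

open Module Pool.Agent.T6.H65.ZD

lemma zeta_mem {w : ℕ} (hw : 2 ≤ w) : mzv [w] ∈ Z w ∧ mzv [w] ≠ 0 := by
  refine ⟨Submodule.subset_span ⟨[w], ⟨?_, ?_, ?_⟩, rfl⟩, ?_⟩
  · intro s hs
    rw [List.mem_singleton] at hs
    omega
  · intro s hs
    simp only [List.head?_cons, Option.mem_def, Option.some.injEq] at hs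
    omega
  · simp
  · have h1 : mzv [w] = ∑' m : ℕ, 1 / ((m + 1 : ℕ) : ℝ) ^ w := by
      simp only [mzv, trunc]
    have hs : Summable (fun m : ℕ => 1 / ((m + 1 : ℕ) : ℝ) ^ w) :=
      (summable_nat_add_iff 1).2 (Real.summable_one_div_nat_pow.2 (by omega))
    rw [h1]
    refine ne_of_gt (hs.tsum_pos (fun m => by positivity) 0 (by norm_num))

section

variable {A : Type} [CommRing A] [IsDomain A] [UniqueFactorizationMonoid A] [Algebra ℚ A]
  (M : MotivicAlgebra A)

include M

lemma pos {n : ℕ} {x : ℝ} (hx : x ∈ Z n) (hx0 : x ≠ 0) : 0 < finrank ℚ (Z n) := by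
  have : FiniteDimensional ℚ (Z n) := by
    rw [← M.onto n]
    infer_instance
  have : Nontrivial (Z n) := ⟨⟨⟨x, hx⟩, 0, fun h => hx0 (congrArg Subtype.val h)⟩⟩
  exact finrank_pos

lemma five_le {m : ℕ} (hm' : finrank ℚ (Z m) ≠ d m) : 5 ≤ m := by
  by_contra hlt
  have h1 := M.rank m
  have d0 : d 0 = 1 := rfl
  have d1 : d 1 = 0 := rfl
  have d2 : d 2 = 1 := rfl
  have d3 : d 3 = 1 := rfl
  have d4 : d 4 = 1 := rfl
  have hp : ∀ n, 2 ≤ n → 0 < finrank ℚ (Z n) := fun n hn =>
    pos M (zeta_mem hn).1 (zeta_mem hn).2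
  have hp0 : 0 < finrank ℚ (Z 0) := pos M (x := 1)
    (Submodule.subset_span ⟨[], ⟨by simp, by simp, rfl⟩, rfl⟩) one_ne_zero
  have hcases : m = 0 ∨ m = 1 ∨ m = 2 ∨ m = 3 ∨ m = 4 := by omega
  rcases hcases with rfl | rfl | rfl | rfl | rfl
  · omega
  · omega
  · have := hp 2 (by omega); omega
  · have := hp 3 (by omega); omega
  · have := hp 4 (by omega); omega

lemma multiples_le {m : ℕ} {f : A} (hf : f ∈ M.K m) (j : ℕ) :
    (M.H j).map (LinearMap.mulLeft ℚ f) ≤ M.K (m + j) := by
  rintro _ ⟨x, hx, rfl⟩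
  refine ⟨M.mul_mem hf.1 hx, ?_⟩
  show M.per (f * x) = 0
  rw [map_mul, M.K_per hf, zero_mul]

lemma one_defect {m : ℕ} (hm' : finrank ℚ (Z m) ≠ d m) (j : ℕ) :
    finrank ℚ (Z (m + j)) + d j ≤ d (m + j) := by
  obtain ⟨f, hf, hf0⟩ := M.exists_mem_K hm'
  have h1 := Submodule.finrank_mono (multiples_le M hf j)
  rw [MotivicAlgebra.finrank_mul hf0, M.dim] at h1
  have h2 := M.rank (m + j)
  omega

end

/-- Let `A` be an algebra of motivic multiple zeta values with the period map. Suppose that Zagier's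
conjecture is false, and let `m` be the first weight in which it fails. (1) `m ≥ 5`, and
`dim 𝒵_(m+j) ≤ d_(m+j) - d_j` for all `j`. (2) If there is no equality in (1) for some `j`, then, with
`l = m + j`, `dim 𝒵_(m+l+r) ≤ d_(m+l+r) - d_(l+r) - d_(m+r) + d_r` for all `r`. (3) Equivalent are:
equality in (1) for all `j`; equality in (1) for infinitely many `j`; for each `ε > 0` equality up to
`ε d_(m+j)` for infinitely many `j`; there is a motivic relation `f` of weight `m` such that, in all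
weights, the motivic elements of period zero are the multiples of `f`. -/
theorem result {A : Type} [CommRing A] [IsDomain A] [UniqueFactorizationMonoid A] [Algebra ℚ A]
    (M : MotivicAlgebra A) (m : ℕ) (hm : ∀ j < m, finrank ℚ (Z j) = d j)
    (hm' : finrank ℚ (Z m) ≠ d m) :
    (5 ≤ m ∧ ∀ j, finrank ℚ (Z (m + j)) + d j ≤ d (m + j)) ∧
    (∀ l, m ≤ l → finrank ℚ (Z l) + d (l - m) ≠ d l → ∀ r,
      finrank ℚ (Z (m + l + r)) + d (l + r) + d (m + r) ≤ d (m + l + r) + d r) ∧
    [∀ j, finrank ℚ (Z (m + j)) + d j = d (m + j),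
      ∀ N, ∃ j, N ≤ j ∧ finrank ℚ (Z (m + j)) + d j = d (m + j),
      ∀ ε : ℝ, 0 < ε → ∀ N, ∃ j, N ≤ j ∧
        (d (m + j) : ℝ) - d j - ε * d (m + j) ≤ finrank ℚ (Z (m + j)),
      ∃ f ∈ M.H m, ∀ n, ∀ z ∈ M.H n,
        (M.per z = 0 ↔ ∃ j, m + j = n ∧ ∃ y ∈ M.H j, z = f * y) ∨ (n < m ∧ (M.per z = 0 ↔ z = 0))
      ].TFAE := by
  obtain ⟨f, hf, hf0⟩ := M.exists_mem_K hm'
  have second : ∀ l, m ≤ l → finrank ℚ (Z l) + d (l - m) ≠ d l → ∀ r,
      finrank ℚ (Z (m + l + r)) + d (l + r) + d (m + r) ≤ d (m + l + r) + d r := by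
    intro l hl h r
    obtain ⟨j, rfl⟩ := Nat.exists_eq_add_of_le hl
    rw [Nat.add_sub_cancel_left] at h
    exact M.second hm hf hf0 h r
  have hm5 := five_le M hm'
  refine ⟨⟨hm5, one_defect M hm'⟩, second, ?_⟩
  tfae_have 1 → 2 := fun h N => ⟨N, le_rfl, h N⟩
  tfae_have 2 → 3 := by
    intro h ε hε N
    obtain ⟨j, hj, h1⟩ := h N
    refine ⟨j, hj, ?_⟩
    have h2 : (finrank ℚ (Z (m + j)) : ℝ) + d j = d (m + j) := by exact_mod_cast h1
    have h3 : (0 : ℝ) ≤ ε * d (m + j) := by positivity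
    linarith
  tfae_have 3 → 1 := by
    intro h
    by_contra hcon
    push Not at hcon
    obtain ⟨i, hi⟩ := hcon
    have hsec := second (m + i) (by omega) (by rwa [Nat.add_sub_cancel_left])
    obtain ⟨j, hj, h1⟩ := h (1 / (16 * 2 ^ (m + i))) (by positivity) (m + i + 3)
    obtain ⟨k, rfl⟩ := Nat.exists_eq_add_of_le hj
    have e1 : m + i + 3 + k = m + i + (k + 3) := by ring
    have e2 : m + (m + i + (k + 3)) = m + (m + i) + (k + 3) := by ring
    rw [e1, e2] at h1
    have h2 := hsec (k + 3)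
    have h3 := d_gap (w := m) (by omega) (r := k + 3) (by omega)
    have h4 : d (m + (m + i) + (k + 3)) ≤ 2 ^ (m + i) * d (m + (k + 3)) := by
      have := d_pow (m + (k + 1)) (m + i)
      have e3 : m + (k + 1) + 2 + (m + i) = m + (m + i) + (k + 3) := by ring
      have e4 : m + (k + 1) + 2 = m + (k + 3) := by ring
      rwa [e3, e4] at this
    have h5 : 0 < d (m + (k + 3)) := by
      have := d_pos (m + (k + 1))
      have e3 : m + (k + 1) + 2 = m + (k + 3) := by ring
      rwa [e3] at this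
    have h2' : (finrank ℚ (Z (m + (m + i) + (k + 3))) : ℝ) + d (m + i + (k + 3)) +
        d (m + (k + 3)) ≤ d (m + (m + i) + (k + 3)) + d (k + 3) := by exact_mod_cast h2
    have h3' : (d (m + (k + 3)) : ℝ) + 8 * d (k + 3) ≤ 8 * d (m + (k + 3)) := by exact_mod_cast h3
    have h4' : (d (m + (m + i) + (k + 3)) : ℝ) ≤ 2 ^ (m + i) * d (m + (k + 3)) := by
      exact_mod_cast h4
    have h5' : (0 : ℝ) < d (m + (k + 3)) := by exact_mod_cast h5
    have h7 : 1 / (16 * 2 ^ (m + i)) * (d (m + (m + i) + (k + 3)) : ℝ) ≤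
        d (m + (k + 3)) / 16 := by
      calc 1 / (16 * 2 ^ (m + i)) * (d (m + (m + i) + (k + 3)) : ℝ)
          ≤ 1 / (16 * 2 ^ (m + i)) * (2 ^ (m + i) * d (m + (k + 3))) :=
            mul_le_mul_of_nonneg_left h4' (by positivity)
        _ = d (m + (k + 3)) / 16 := by field_simp
    linarith
  tfae_have 1 → 4 := by
    intro h
    refine ⟨f, hf.1, fun n z hz => ?_⟩
    by_cases hn : m ≤ n
    · left
      obtain ⟨j, rfl⟩ := Nat.exists_eq_add_of_le hn
      have e : (M.H j).map (LinearMap.mulLeft ℚ f) = M.K (m + j) := by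
        refine Submodule.eq_of_le_of_finrank_eq (multiples_le M hf j) ?_
        rw [MotivicAlgebra.finrank_mul hf0, M.dim]
        have h1 := M.rank (m + j)
        have h2 := h j
        omega
      constructor
      · intro h0
        have h1 : z ∈ M.K (m + j) := ⟨hz, h0⟩
        rw [← e] at h1
        obtain ⟨y, hy, h2⟩ := h1
        exact ⟨j, rfl, y, hy, h2.symm⟩
      · rintro ⟨j', -, y, -, rfl⟩
        rw [map_mul, M.K_per hf, zero_mul]
    · right
      refine ⟨by omega, fun h0 => M.K_eq_bot (hm n (by omega)) ⟨hz, h0⟩, ?_⟩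
      rintro rfl
      exact map_zero _
  tfae_have 4 → 1 := by
    rintro ⟨g, hg, h⟩ j
    have hK : ∀ i, ∀ z ∈ M.H (m + i), (M.per z = 0 ↔ ∃ y ∈ M.H i, z = g * y) := by
      intro i z hz
      rcases h (m + i) z hz with h1 | h1
      · rw [h1]
        constructor
        · rintro ⟨j', hj', y, hy, hzy⟩
          have : j' = i := by omega
          subst this
          exact ⟨y, hy, hzy⟩
        · rintro ⟨y, hy, hzy⟩
          exact ⟨i, rfl, y, hy, hzy⟩
      · omega
    have hg0 : g ≠ 0 := by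
      rintro rfl
      obtain ⟨y, -, hy⟩ := (hK 0 f hf.1).1 (M.K_per hf)
      rw [zero_mul] at hy
      exact hf0 hy
    have e : M.K (m + j) = (M.H j).map (LinearMap.mulLeft ℚ g) := by
      ext z
      constructor
      · intro hz
        obtain ⟨y, hy, h1⟩ := (hK j z hz.1).1 (M.K_per hz)
        exact ⟨y, hy, h1.symm⟩
      · rintro ⟨y, hy, rfl⟩
        have hmem : g * y ∈ M.H (m + j) := M.mul_mem hg hy
        exact ⟨hmem, (hK j _ hmem).2 ⟨y, hy, rfl⟩⟩
    have h1 := M.rank (m + j)
    rw [e, MotivicAlgebra.finrank_mul hg0, M.dim] at h1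
    exact h1
  tfae_finish

end Pool.Agent.Results.MP_56e040_nt.SecondDefects
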